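import Mathlib

set_option autoImplicit false

/-!
# MP_9521de_co, Q1: many points may see little boundary

For all `c, C > 0` there are an `ε` and an `ε`-visible space, the unit square with disjoint
rectangular obstacles in its interior, such that the area of the set of the points `v` which see
less than `c √(ε μ(F))` of the boundary exceeds `C √ε μ(F)`.

Construction: the square is divided into many horizontal strips by walls, which leave corridors at
the two sides. In the middle of each strip there is a fence of many thin vertical teeth. A point in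
the middle of a channel between two neighbouring teeth sees only their sides, and two short
segments of the walls.
-/

namespace Pool.Agent.Results.MP_9521de_co.ManyPointsSeeLittle

open MeasureTheory Set

/-- The Euclidean plane. -/
abbrev Pl : Type := EuclideanSpace ℝ (Fin 2)

/-- The closed axis-parallel rectangle `[x₁, x₂] × [y₁, y₂]`. -/
def rect (x₁ x₂ y₁ y₂ : ℝ) : Set Pl := {p | (x₁ ≤ p 0 ∧ p 0 ≤ x₂) ∧ (y₁ ≤ p 1 ∧ p 1 ≤ y₂)}

/-- The set of the points seen from `v` in the free space `F`. -/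
def Vis (F : Set Pl) (v : Pl) : Set Pl := {w | segment ℝ v w ⊆ F}

/-- The visible boundary: the points `u` of `W` such that the half-open segment `[v, u)` contains
no point of `W` other than possibly `v`. -/
def VisBd (W : Set Pl) (v : Pl) : Set Pl :=
  {u | u ∈ W ∧ ∀ t : ℝ, 0 ≤ t → t < 1 → v + t • (u - v) ∈ W → v + t • (u - v) = v}

/-! ### areas of boxes -/

/-- open boxes -/
def obox (x₁ x₂ y₁ y₂ : ℝ) : Set Pl := {p | (x₁ < p 0 ∧ p 0 < x₂) ∧ (y₁ < p 1 ∧ p 1 < y₂)}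

theorem isOpen_obox (x₁ x₂ y₁ y₂ : ℝ) : IsOpen (obox x₁ x₂ y₁ y₂) := by
  have h0 : Continuous fun p : Pl => p 0 := by fun_prop
  have h1 : Continuous fun p : Pl => p 1 := by fun_prop
  exact ((isOpen_lt continuous_const h0).inter (isOpen_lt h0 continuous_const)).inter
    ((isOpen_lt continuous_const h1).inter (isOpen_lt h1 continuous_const))

theorem isClosed_rect (x₁ x₂ y₁ y₂ : ℝ) : IsClosed (rect x₁ x₂ y₁ y₂) := by
  have h0 : Continuous fun p : Pl => p 0 := by fun_prop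
  have h1 : Continuous fun p : Pl => p 1 := by fun_prop
  exact ((isClosed_le continuous_const h0).inter (isClosed_le h0 continuous_const)).inter
    ((isClosed_le continuous_const h1).inter (isClosed_le h1 continuous_const))

theorem volume_obox {x₁ x₂ y₁ y₂ : ℝ} (hx : x₁ ≤ x₂) :
    volume (obox x₁ x₂ y₁ y₂) = ENNReal.ofReal ((x₂ - x₁) * (y₂ - y₁)) := by
  have e : obox x₁ x₂ y₁ y₂ = (MeasurableEquiv.toLp 2 (Fin 2 → ℝ)).symm ⁻¹'
      (Set.univ.pi fun i : Fin 2 => Set.Ioo (![x₁, y₁] i) (![x₂, y₂] i)) := by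
    ext p
    simp only [obox, Set.mem_ofPred_eq, Set.mem_preimage, Set.mem_pi, Set.mem_univ,
      forall_true_left, Fin.forall_fin_two, Set.mem_Ioo]
    rfl
  rw [e, (EuclideanSpace.volume_preserving_symm_measurableEquiv_toLp (Fin 2)).measure_preimage
    (MeasurableSet.univ_pi fun i => measurableSet_Ioo).nullMeasurableSet, Real.volume_pi_Ioo,
    Fin.prod_univ_two]
  simp only [Matrix.cons_val_zero, Matrix.cons_val_one]
  rw [← ENNReal.ofReal_mul (by linarith)]

theorem volume_rect {x₁ x₂ y₁ y₂ : ℝ} (hx : x₁ ≤ x₂) :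
    volume (rect x₁ x₂ y₁ y₂) = ENNReal.ofReal ((x₂ - x₁) * (y₂ - y₁)) := by
  have e : rect x₁ x₂ y₁ y₂ = (MeasurableEquiv.toLp 2 (Fin 2 → ℝ)).symm ⁻¹'
      (Set.univ.pi fun i : Fin 2 => Set.Icc (![x₁, y₁] i) (![x₂, y₂] i)) := by
    ext p
    simp only [rect, Set.mem_ofPred_eq, Set.mem_preimage, Set.mem_pi, Set.mem_univ,
      forall_true_left, Fin.forall_fin_two, Set.mem_Icc]
    rfl
  rw [e, (EuclideanSpace.volume_preserving_symm_measurableEquiv_toLp (Fin 2)).measure_preimage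
    (MeasurableSet.univ_pi fun i => measurableSet_Icc).nullMeasurableSet, Set.pi_univ_Icc,
    Real.volume_Icc_pi, Fin.prod_univ_two]
  simp only [Matrix.cons_val_zero, Matrix.cons_val_one]
  rw [← ENNReal.ofReal_mul (by linarith)]


theorem coord0 (v u : Pl) (t : ℝ) : (v + t • (u - v)) 0 = v 0 + t * (u 0 - v 0) := by simp

theorem coord1 (v u : Pl) (t : ℝ) : (v + t • (u - v)) 1 = v 1 + t * (u 1 - v 1) := by simp

/-- moving from a point of a closed box to a point of its interior -/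
theorem mem_obox_of {x₁ x₂ y₁ y₂ : ℝ} {v u : Pl} (hv : v ∈ rect x₁ x₂ y₁ y₂)
    (hu : u ∈ obox x₁ x₂ y₁ y₂) {t : ℝ} (ht0 : 0 < t) (ht1 : t ≤ 1) :
    v + t • (u - v) ∈ obox x₁ x₂ y₁ y₂ := by
  obtain ⟨⟨a1, a2⟩, ⟨a3, a4⟩⟩ := hv
  obtain ⟨⟨b1, b2⟩, ⟨b3, b4⟩⟩ := hu
  refine ⟨⟨?_, ?_⟩, ⟨?_, ?_⟩⟩
  · rw [coord0]; nlinarith
  · rw [coord0]; nlinarith
  · rw [coord1]; nlinarith
  · rw [coord1]; nlinarith

theorem rect_subset_closure {x₁ x₂ y₁ y₂ : ℝ} (hx : x₁ < x₂) (hy : y₁ < y₂) :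
    rect x₁ x₂ y₁ y₂ ⊆ closure (obox x₁ x₂ y₁ y₂) := by
  intro v hv
  obtain ⟨u, hu⟩ : ∃ u : Pl, u ∈ obox x₁ x₂ y₁ y₂ :=
    ⟨!₂[(x₁ + x₂) / 2, (y₁ + y₂) / 2], by
      simp only [obox, Set.mem_ofPred_eq]
      refine ⟨⟨?_, ?_⟩, ⟨?_, ?_⟩⟩ <;> simp <;> linarith⟩
  have hc : Filter.Tendsto (fun t : ℝ => v + t • (u - v)) (nhdsWithin 0 (Set.Ioi 0)) (nhds v) := by
    have : Continuous fun t : ℝ => v + t • (u - v) := by fun_prop
    have h := this.tendsto 0
    simp only [zero_smul, add_zero] at h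
    exact h.mono_left nhdsWithin_le_nhds
  refine mem_closure_of_tendsto hc ?_
  have : Set.Ioo (0 : ℝ) 1 ∈ nhdsWithin (0 : ℝ) (Set.Ioi 0) := Ioo_mem_nhdsGT zero_lt_one
  filter_upwards [this] with t ht
  exact mem_obox_of hv hu ht.1 ht.2.le

/-- a point sees every free open box in the closure of which it lies -/
theorem obox_subset_Vis {F : Set Pl} {x₁ x₂ y₁ y₂ : ℝ} {v : Pl} (hvF : v ∈ F)
    (hv : v ∈ rect x₁ x₂ y₁ y₂) (hF : obox x₁ x₂ y₁ y₂ ⊆ F) : obox x₁ x₂ y₁ y₂ ⊆ Vis F v := by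
  intro u hu
  show segment ℝ v u ⊆ F
  rw [segment_eq_image']
  rintro _ ⟨t, ht, rfl⟩
  simp only
  rcases eq_or_lt_of_le ht.1 with h | h
  · rw [← h, zero_smul, add_zero]; exact hvF
  · exact hF (mem_obox_of hv hu h ht.2)

/-- points of a set which are limits of points outside are on its boundary -/
theorem mem_frontier_of {S : Set Pl} {x₁ x₂ y₁ y₂ : ℝ} {z : Pl} (hx : x₁ < x₂) (hy : y₁ < y₂)
    (hz : z ∈ S) (hzr : z ∈ rect x₁ x₂ y₁ y₂) (hd : ∀ p ∈ obox x₁ x₂ y₁ y₂, p ∉ S) :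
    z ∈ frontier S := by
  refine ⟨subset_closure hz, fun hi => ?_⟩
  have h1 := rect_subset_closure hx hy hzr
  rw [mem_closure_iff] at h1
  obtain ⟨p, hp1, hp2⟩ := h1 _ isOpen_interior hi
  exact hd p hp2 (interior_subset hp1)

/-! ### the configuration -/

/-- the `j`-th wall -/
def wall (a : ℝ) (j : ℕ) : Set Pl := rect (1 / 8) (7 / 8) ((2 * j + 1) * a) ((2 * j + 2) * a)

/-- the `i`-th tooth of the `j`-th fence -/
def tooth (a s h : ℝ) (j i : ℕ) : Set Pl :=
  rect (1 / 4 + 2 * i * s) (1 / 4 + (2 * i + 1) * s) (2 * j * a + a / 2) (2 * j * a + a / 2 + h)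

/-- the obstacles -/
def Ob (K N : ℕ) (a s h : ℝ) : Fin K ⊕ (Fin (K + 1) × Fin N) → Set Pl :=
  Sum.elim (fun j => wall a j) (fun q => tooth a s h q.1 q.2)

/-- the union of the obstacles -/
def BB (K N : ℕ) (a s h : ℝ) : Set Pl := ⋃ i, Ob K N a s h i

/-- the free space -/
def FF (K N : ℕ) (a s h : ℝ) : Set Pl := rect 0 1 0 1 \ BB K N a s h

/-- the boundary -/
def WW (K N : ℕ) (a s h : ℝ) : Set Pl := frontier (BB K N a s h) ∪ frontier (rect 0 1 0 1)

/-- the conditions on the parameters -/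
structure Ok (K N : ℕ) (a s h : ℝ) : Prop where
  ha : (2 * K + 1) * a = 1
  hs : 4 * N * s = 1
  hh : 0 < h
  hha : h ≤ a / 4
  hsa : 4 * (s / h) * a < 1 / 8

namespace Ok

variable {K N : ℕ} {a s h : ℝ}

theorem a_pos (H : Ok K N a s h) : 0 < a := by
  have h1 := H.ha
  have h2 : (0 : ℝ) ≤ K := Nat.cast_nonneg _
  by_contra h3
  push Not at h3
  nlinarith

theorem s_pos (H : Ok K N a s h) : 0 < s := by
  have h1 := H.hs
  have h2 : (0 : ℝ) ≤ N := Nat.cast_nonneg _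
  by_contra h3
  push Not at h3
  nlinarith

theorem isClosed_BB : IsClosed (BB K N a s h) := by
  apply isClosed_iUnion_of_finite
  rintro (j | ⟨j, i⟩)
  · exact isClosed_rect _ _ _ _
  · exact isClosed_rect _ _ _ _

theorem mem_BB {p : Pl} : p ∈ BB K N a s h ↔ (∃ j : ℕ, j < K ∧ p ∈ wall a j) ∨
    ∃ j : ℕ, j < K + 1 ∧ ∃ i : ℕ, i < N ∧ p ∈ tooth a s h j i := by
  constructor
  · intro hp
    obtain ⟨i, hi⟩ := Set.mem_iUnion.1 hp
    rcases i with j | ⟨j, i⟩
    · exact Or.inl ⟨j, j.2, hi⟩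
    · exact Or.inr ⟨j, j.2, i, i.2, hi⟩
  · rintro (⟨j, hj, hp⟩ | ⟨j, hj, i, hi, hp⟩)
    · exact Set.mem_iUnion.2 ⟨Sum.inl ⟨j, hj⟩, hp⟩
    · exact Set.mem_iUnion.2 ⟨Sum.inr (⟨j, hj⟩, ⟨i, hi⟩), hp⟩

/-- the obstacles inside an open strip -/
theorem strip (H : Ok K N a s h) {j : ℕ} {p : Pl} (h1 : 2 * j * a < p 1)
    (h2 : p 1 < (2 * j + 1) * a) (hp : p ∈ BB K N a s h) :
    ∃ i : ℕ, i < N ∧ p ∈ tooth a s h j i := by
  have ha := H.a_pos
  have hha := H.hha
  have hh := H.hh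
  rcases mem_BB.1 hp with ⟨j', hj', hp⟩ | ⟨j', hj', i, hi, hp⟩
  · exfalso
    obtain ⟨-, ⟨h3, h4⟩⟩ := hp
    have h5 : (2 * (j' : ℝ) + 1) * a < (2 * j + 1) * a := by linarith
    have h6 := lt_of_mul_lt_mul_right h5 ha.le
    have h7 : (j' : ℝ) < j := by linarith
    have h8 : j' + 1 ≤ j := by exact_mod_cast h7
    have h9 : (j' : ℝ) + 1 ≤ j := by exact_mod_cast h8
    nlinarith
  · have h34 := hp.2
    obtain ⟨h3, h4⟩ := h34
    have h5 : (2 * (j' : ℝ) + 1 / 2) * a < (2 * j + 1) * a := by nlinarith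
    have h6 := lt_of_mul_lt_mul_right h5 ha.le
    have h7 : (j' : ℝ) < j + 1 := by linarith
    have h8 : j' < j + 1 := by exact_mod_cast h7
    have h5' : (2 * (j : ℝ)) * a < (2 * j' + 3 / 4) * a := by nlinarith
    have h6' := lt_of_mul_lt_mul_right h5' ha.le
    have h7' : (j : ℝ) < j' + 1 := by linarith
    have h8' : j < j' + 1 := by exact_mod_cast h7'
    have : j' = j := by omega
    subst this
    exact ⟨i, hi, hp⟩

/-- the strips lie in the square -/
theorem strip_le (H : Ok K N a s h) {j : ℕ} (hj : j ≤ K) : (2 * j + 1) * a ≤ 1 := by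
  have ha := H.a_pos
  have h1 : (j : ℝ) ≤ K := by exact_mod_cast hj
  have h2 := H.ha
  nlinarith

theorem mem_R_of_obox {x₁ x₂ y₁ y₂ : ℝ} (h1 : 0 ≤ x₁) (h2 : x₂ ≤ 1) (h3 : 0 ≤ y₁) (h4 : y₂ ≤ 1)
    {p : Pl} (hp : p ∈ obox x₁ x₂ y₁ y₂) : p ∈ rect 0 1 0 1 := by
  obtain ⟨⟨a1, a2⟩, ⟨a3, a4⟩⟩ := hp
  exact ⟨⟨by linarith, by linarith⟩, ⟨by linarith, by linarith⟩⟩

/-- the left corridor -/
theorem free1 (H : Ok K N a s h) : obox 0 (1 / 8) 0 1 ⊆ FF K N a s h := by
  intro p hp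
  refine ⟨mem_R_of_obox (by norm_num) (by norm_num) (by norm_num) (by norm_num) hp, fun hB => ?_⟩
  obtain ⟨⟨a1, a2⟩, -⟩ := hp
  have hs := H.s_pos
  rcases mem_BB.1 hB with ⟨j', hj', hp⟩ | ⟨j', hj', i, hi, hp⟩
  · obtain ⟨⟨b1, b2⟩, -⟩ := hp
    linarith
  · obtain ⟨⟨b1, b2⟩, -⟩ := hp
    have : (0 : ℝ) ≤ 2 * i * s := by positivity
    linarith

/-- the teeth end before `3 / 4` -/
theorem tooth_le (H : Ok K N a s h) {i : ℕ} (hi : i < N) : 1 / 4 + (2 * i + 1) * s ≤ 3 / 4 - s := by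
  have hs := H.s_pos
  have h1 : (i : ℝ) + 1 ≤ N := by exact_mod_cast hi
  have h2 := H.hs
  nlinarith

/-- the right corridor -/
theorem free2 (H : Ok K N a s h) : obox (7 / 8) 1 0 1 ⊆ FF K N a s h := by
  intro p hp
  refine ⟨mem_R_of_obox (by norm_num) (by norm_num) (by norm_num) (by norm_num) hp, fun hB => ?_⟩
  obtain ⟨⟨a1, a2⟩, -⟩ := hp
  have hs := H.s_pos
  rcases mem_BB.1 hB with ⟨j', hj', hp⟩ | ⟨j', hj', i, hi, hp⟩
  · obtain ⟨⟨b1, b2⟩, -⟩ := hp
    linarith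
  · obtain ⟨⟨b1, b2⟩, -⟩ := hp
    have := H.tooth_le hi
    linarith

/-- an open box inside a strip which avoids the teeth is free -/
theorem free_strip (H : Ok K N a s h) {j : ℕ} (hj : j ≤ K) {x₁ x₂ y₁ y₂ : ℝ} (h1 : 0 ≤ x₁)
    (h2 : x₂ ≤ 1) (h3 : 2 * j * a ≤ y₁) (h4 : y₂ ≤ (2 * j + 1) * a)
    (h5 : ∀ i < N, ∀ p ∈ obox x₁ x₂ y₁ y₂, p ∉ tooth a s h j i) :
    obox x₁ x₂ y₁ y₂ ⊆ FF K N a s h := by
  intro p hp
  have hle := H.strip_le hj
  have ha := H.a_pos
  have h0 : 0 ≤ 2 * (j : ℝ) * a := by positivity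
  refine ⟨mem_R_of_obox h1 h2 (by linarith) (by linarith) hp, fun hB => ?_⟩
  obtain ⟨i, hi, hpi⟩ := H.strip (j := j) (by linarith [hp.2.1]) (by linarith [hp.2.2]) hB
  exact h5 i hi p hp hpi

/-- below the fence -/
theorem free3 (H : Ok K N a s h) {j : ℕ} (hj : j ≤ K) :
    obox 0 1 (2 * j * a) (2 * j * a + a / 2) ⊆ FF K N a s h := by
  have ha := H.a_pos
  refine H.free_strip hj (by norm_num) (by norm_num) le_rfl (by nlinarith) ?_
  intro i _ p hp hpi
  obtain ⟨-, b1, b2⟩ := hp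
  obtain ⟨-, c1, c2⟩ := hpi
  linarith

/-- above the fence -/
theorem free4 (H : Ok K N a s h) {j : ℕ} (hj : j ≤ K) :
    obox 0 1 (2 * j * a + a / 2 + h) ((2 * j + 1) * a) ⊆ FF K N a s h := by
  have ha := H.a_pos
  have hh := H.hh
  refine H.free_strip hj (by norm_num) (by norm_num) (by linarith) le_rfl ?_
  intro i _ p hp hpi
  obtain ⟨-, b1, b2⟩ := hp
  obtain ⟨-, c1, c2⟩ := hpi
  linarith

/-- to the left of the fence -/
theorem free5 (H : Ok K N a s h) {j : ℕ} (hj : j ≤ K) :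
    obox 0 (1 / 4) (2 * j * a) ((2 * j + 1) * a) ⊆ FF K N a s h := by
  have hs := H.s_pos
  refine H.free_strip hj (by norm_num) (by norm_num) le_rfl le_rfl ?_
  intro i _ p hp hpi
  obtain ⟨⟨b1, b2⟩, -⟩ := hp
  obtain ⟨⟨c1, c2⟩, -⟩ := hpi
  have : (0 : ℝ) ≤ 2 * i * s := by positivity
  linarith

/-- to the right of the fence -/
theorem free6 (H : Ok K N a s h) {j : ℕ} (hj : j ≤ K) :
    obox (3 / 4 - s) 1 (2 * j * a) ((2 * j + 1) * a) ⊆ FF K N a s h := by
  have hs := H.s_pos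
  have hN : 0 < N := by
    rcases Nat.eq_zero_or_pos N with h0 | h0
    · exfalso
      have := H.hs
      rw [h0] at this
      norm_num at this
    · exact h0
  have h1 := H.tooth_le hN
  refine H.free_strip hj (by push_cast at h1; linarith) (by norm_num) le_rfl le_rfl ?_
  intro i hi p hp hpi
  obtain ⟨⟨b1, b2⟩, -⟩ := hp
  obtain ⟨⟨c1, c2⟩, -⟩ := hpi
  have := H.tooth_le hi
  linarith

/-- the channels -/
theorem free7 (H : Ok K N a s h) {j i : ℕ} (hj : j ≤ K) (hi : i + 1 < N) :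
    obox (1 / 4 + (2 * i + 1) * s) (1 / 4 + (2 * i + 1) * s + s) (2 * j * a) ((2 * j + 1) * a) ⊆
      FF K N a s h := by
  have hs := H.s_pos
  have h1 := H.tooth_le hi
  push_cast at h1
  refine H.free_strip hj (by positivity) (by nlinarith) le_rfl le_rfl ?_
  intro i' hi' p hp hpi
  obtain ⟨⟨b1, b2⟩, -⟩ := hp
  obtain ⟨⟨c1, c2⟩, -⟩ := hpi
  have e1 : (2 * (i' : ℝ)) * s < (2 * i + 2) * s := by linarith
  have e2 : (2 * (i : ℝ) + 1) * s < (2 * i' + 1) * s := by linarith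
  have e3 := lt_of_mul_lt_mul_right e1 hs.le
  have e4 := lt_of_mul_lt_mul_right e2 hs.le
  have e5 : (i' : ℝ) < i + 1 := by linarith
  have e6 : (i : ℝ) < i' := by linarith
  have e7 : i' < i + 1 := by exact_mod_cast e5
  have e8 : i < i' := by exact_mod_cast e6
  omega

end Ok

namespace Ok

variable {K N : ℕ} {a s h : ℝ}

/-- a ray which is steep enough stays in the channel -/
theorem steep {v0 v1 u0 u1 L R m h T t : ℝ} (hh : 0 < h) (ht : 0 < t) (h1 : L < v0)
    (h2 : v0 < R) (hu1 : v0 - (v0 - L) / h * (T / 2) < u0) (hu2 : u0 < v0 + (R - v0) / h * (T / 2))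
    (hu3 : v1 + T / 2 < u1) (hm : m ≤ v1) (hl : v1 + t * (u1 - v1) ≤ m + h) :
    L < v0 + t * (u0 - v0) ∧ v0 + t * (u0 - v0) < R := by
  have hp : 0 < (v0 - L) / h := div_pos (by linarith) hh
  have hq : 0 < (R - v0) / h := div_pos (by linarith) hh
  have hph : (v0 - L) / h * h = v0 - L := by field_simp
  have hqh : (R - v0) / h * h = R - v0 := by field_simp
  have g0 : t * (T / 2) < t * (u1 - v1) := mul_lt_mul_of_pos_left (by linarith) ht
  have g1 : t * (T / 2) < h := by linarith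
  have g2 : t * (-((v0 - L) / h * (T / 2))) < t * (u0 - v0) :=
    mul_lt_mul_of_pos_left (by linarith) ht
  have g3 : t * (u0 - v0) < t * ((R - v0) / h * (T / 2)) :=
    mul_lt_mul_of_pos_left (by linarith) ht
  have g4 : (v0 - L) / h * (t * (T / 2)) < (v0 - L) / h * h :=
    mul_lt_mul_of_pos_left g1 hp
  have g5 : (R - v0) / h * (t * (T / 2)) < (R - v0) / h * h :=
    mul_lt_mul_of_pos_left g1 hq
  constructor <;> linarith

/-- moving a part of a bounded displacement -/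
theorem part_move {t x y A B : ℝ} (ht0 : 0 < t) (ht1 : t ≤ 1) (hA : 0 ≤ A) (hB : 0 ≤ B)
    (h1 : x - A < y) (h2 : y < x + B) : x - A < x + t * (y - x) ∧ x + t * (y - x) < x + B := by
  have g1 : t * (-A) < t * (y - x) := mul_lt_mul_of_pos_left (by linarith) ht0
  have g2 : t * (y - x) < t * B := mul_lt_mul_of_pos_left (by linarith) ht0
  have g3 : t * A ≤ 1 * A := mul_le_mul_of_nonneg_right ht1 hA
  have g4 : t * B ≤ 1 * B := mul_le_mul_of_nonneg_right ht1 hB
  constructor <;> linarith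

/-- the area seen from a point of a channel -/
theorem channel (H : Ok K N a s h) {v : Pl} (hv : v ∈ FF K N a s h) {j i : ℕ} (hj : j ≤ K)
    (hi : i + 1 < N) (h1 : 1 / 4 + (2 * i + 1) * s < v 0)
    (h2 : v 0 < 1 / 4 + (2 * i + 1) * s + s) (h3 : 2 * j * a + a / 2 ≤ v 1)
    (h4 : v 1 ≤ 2 * j * a + a / 2 + h) :
    ENNReal.ofReal (s / h * a ^ 2 / 64) ≤ volume (Vis (FF K N a s h) v) := by
  have ha := H.a_pos
  have hs := H.s_pos
  have hh := H.hh
  have hha := H.hha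
  obtain ⟨L, hL⟩ : ∃ L : ℝ, L = 1 / 4 + (2 * i + 1) * s := ⟨_, rfl⟩
  have hLle := H.tooth_le hi
  push_cast at hLle
  have hL0 : 1 / 4 ≤ L := by
    rw [hL]
    have : 0 ≤ (2 * (i : ℝ) + 1) * s := by positivity
    linarith
  have hL2 : L + s ≤ 3 / 4 := by rw [hL]; linarith
  rw [← hL] at h1 h2
  obtain ⟨T, hT⟩ : ∃ T : ℝ, T = (2 * j + 1) * a - v 1 := ⟨_, rfl⟩
  have hT1 : a / 4 ≤ T := by rw [hT]; linarith
  have hT2 : T ≤ a / 2 := by rw [hT]; linarith
  have hT0 : 0 < T := by linarith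
  have hp : 0 < (v 0 - L) / h := div_pos (by linarith) hh
  have hq : 0 < (L + s - v 0) / h := div_pos (by linarith) hh
  have hpq : (v 0 - L) / h + (L + s - v 0) / h = s / h := by ring
  have hsh : 0 < s / h := by positivity
  have e1 : (v 0 - L) / h * (T / 2) ≤ s / h * a := by
    apply mul_le_mul _ _ (by linarith) hsh.le
    · exact (div_le_div_iff_of_pos_right hh).2 (by linarith)
    · linarith
  have e2 : (L + s - v 0) / h * (T / 2) ≤ s / h * a := by
    apply mul_le_mul _ _ (by linarith) hsh.le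
    · exact (div_le_div_iff_of_pos_right hh).2 (by linarith)
    · linarith
  have e3 := H.hsa
  have hp' : 0 ≤ (v 0 - L) / h * (T / 2) := by positivity
  have hq' : 0 ≤ (L + s - v 0) / h * (T / 2) := by positivity
  have hsub : obox (v 0 - (v 0 - L) / h * (T / 2)) (v 0 + (L + s - v 0) / h * (T / 2))
      (v 1 + T / 2) (v 1 + T) ⊆ Vis (FF K N a s h) v := by
    intro u hu
    obtain ⟨⟨u1, u2⟩, ⟨u3, u4⟩⟩ := hu
    show segment ℝ v u ⊆ FF K N a s h
    rw [segment_eq_image']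
    rintro _ ⟨t, ht, rfl⟩
    simp only
    rcases eq_or_lt_of_le ht.1 with ht0 | ht0
    · rw [← ht0, zero_smul, add_zero]; exact hv
    · have ht1 := ht.2
      have g5 := part_move (x := v 1) (y := u 1) (A := 0) (B := T) ht0 ht1 le_rfl hT0.le
        (by linarith) u4
      by_cases hlow : v 1 + t * (u 1 - v 1) ≤ 2 * j * a + a / 2 + h
      · -- inside the channel
        have g := steep hh ht0 h1 h2 u1 u2 u3 h3 hlow
        apply H.free7 hj hi
        rw [← hL]
        refine ⟨⟨?_, ?_⟩, ⟨?_, ?_⟩⟩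
        · rw [coord0]; exact g.1
        · rw [coord0]; exact g.2
        · rw [coord1]; linarith [g5.1]
        · rw [coord1]; linarith
      · push Not at hlow
        apply H.free4 hj
        have g6 := part_move (x := v 0) (y := u 0) ht0 ht1 hp' hq' u1 u2
        refine ⟨⟨?_, ?_⟩, ⟨?_, ?_⟩⟩
        · rw [coord0]; linarith [g6.1]
        · rw [coord0]; linarith [g6.2]
        · rw [coord1]; exact hlow
        · rw [coord1]; linarith [g5.2]
  refine le_trans ?_ (measure_mono hsub)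
  rw [volume_obox (by linarith)]
  apply ENNReal.ofReal_le_ofReal
  have e1 : (v 0 + (L + s - v 0) / h * (T / 2) - (v 0 - (v 0 - L) / h * (T / 2))) *
      (v 1 + T - (v 1 + T / 2)) = s / h * (T * T) / 4 := by
    rw [← hpq]; ring
  rw [e1]
  have e2 : (a / 4) * (a / 4) ≤ T * T := mul_le_mul hT1 hT1 (by linarith) hT0.le
  have e4 : s / h * ((a / 4) * (a / 4)) ≤ s / h * (T * T) := mul_le_mul_of_nonneg_left e2 hsh.le
  have e5 : s / h * a ^ 2 / 64 = s / h * ((a / 4) * (a / 4)) / 4 := by ring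
  rw [e5]
  linarith

theorem box_area {F : Set Pl} {v : Pl} {x₁ x₂ y₁ y₂ A : ℝ} (hvF : v ∈ F)
    (hv : v ∈ rect x₁ x₂ y₁ y₂) (hF : obox x₁ x₂ y₁ y₂ ⊆ F) (hx : x₁ ≤ x₂)
    (hA : A ≤ (x₂ - x₁) * (y₂ - y₁)) : ENNReal.ofReal A ≤ volume (Vis F v) := by
  refine le_trans ?_ (measure_mono (obox_subset_Vis hvF hv hF))
  rw [volume_obox hx]
  exact ENNReal.ofReal_le_ofReal hA

/-- every free point sees a large area -/
theorem area (H : Ok K N a s h) {A : ℝ} (hA1 : A ≤ 1 / 8) (hA2 : A ≤ a / 4)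
    (hA3 : A ≤ s / h * a ^ 2 / 64) {v : Pl} (hv : v ∈ FF K N a s h) :
    ENNReal.ofReal A ≤ volume (Vis (FF K N a s h) v) := by
  have ha := H.a_pos
  have hs := H.s_pos
  have hh := H.hh
  have hha := H.hha
  have hK := H.ha
  obtain ⟨⟨⟨x0, x1⟩, ⟨y0, y1⟩⟩, hB⟩ := id hv
  rcases le_or_gt (v 0) (1 / 8) with hx | hx
  · exact box_area hv ⟨⟨x0, hx⟩, ⟨y0, y1⟩⟩ H.free1 (by norm_num) (by linarith)
  rcases le_or_gt (7 / 8) (v 0) with hx' | hx'
  · exact box_area hv ⟨⟨hx', x1⟩, ⟨y0, y1⟩⟩ H.free2 (by norm_num) (by linarith)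
  -- the strip
  obtain ⟨j, hj⟩ : ∃ j : ℕ, j = ⌊v 1 / (2 * a)⌋₊ := ⟨_, rfl⟩
  have h2a : 0 < 2 * a := by linarith
  have j1 : 2 * j * a ≤ v 1 := by
    have := Nat.floor_le (a := v 1 / (2 * a)) (by positivity)
    rw [← hj, le_div_iff₀ h2a] at this
    linarith
  have j2 : v 1 < (2 * j + 2) * a := by
    have := Nat.lt_floor_add_one (v 1 / (2 * a))
    rw [← hj, div_lt_iff₀ h2a] at this
    linarith
  have jK : j ≤ K := by
    have e1 : (2 * (j : ℝ)) * a < (2 * K + 2) * a := by nlinarith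
    have e2 := lt_of_mul_lt_mul_right e1 ha.le
    have e3 : (j : ℝ) < K + 1 := by linarith
    have e4 : j < K + 1 := by exact_mod_cast e3
    omega
  have j3 : v 1 ≤ (2 * j + 1) * a := by
    by_contra hcon
    push Not at hcon
    apply hB
    rw [mem_BB]
    refine Or.inl ⟨j, ?_, ⟨by linarith, by linarith⟩, ⟨hcon.le, j2.le⟩⟩
    have e1 : (2 * (j : ℝ) + 1) * a < (2 * K + 1) * a := by linarith
    have e2 := lt_of_mul_lt_mul_right e1 ha.le
    have e3 : (j : ℝ) < K := by linarith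
    exact_mod_cast e3
  rcases le_or_gt (v 1) (2 * j * a + a / 2) with hy | hy
  · exact box_area hv ⟨⟨x0, x1⟩, ⟨j1, hy⟩⟩ (H.free3 jK) (by norm_num) (by linarith)
  rcases le_or_gt (2 * j * a + a / 2 + h) (v 1) with hy' | hy'
  · exact box_area hv ⟨⟨x0, x1⟩, ⟨hy', j3⟩⟩ (H.free4 jK) (by norm_num) (by linarith)
  rcases le_or_gt (v 0) (1 / 4) with hx2 | hx2
  · exact box_area hv ⟨⟨x0, hx2⟩, ⟨j1, j3⟩⟩ (H.free5 jK) (by norm_num) (by linarith)
  rcases le_or_gt (3 / 4 - s) (v 0) with hx3 | hx3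
  · exact box_area hv ⟨⟨hx3, x1⟩, ⟨j1, j3⟩⟩ (H.free6 jK) (by linarith) (by nlinarith)
  -- a channel
  obtain ⟨i, hi⟩ : ∃ i : ℕ, i = ⌊(v 0 - 1 / 4) / (2 * s)⌋₊ := ⟨_, rfl⟩
  have h2s : 0 < 2 * s := by linarith
  have i1 : 1 / 4 + 2 * i * s ≤ v 0 := by
    have := Nat.floor_le (a := (v 0 - 1 / 4) / (2 * s)) (div_nonneg (by linarith) h2s.le)
    rw [← hi, le_div_iff₀ h2s] at this
    linarith
  have i2 : v 0 < 1 / 4 + (2 * i + 1) * s + s := by
    have := Nat.lt_floor_add_one ((v 0 - 1 / 4) / (2 * s))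
    rw [← hi, div_lt_iff₀ h2s] at this
    linarith
  have hNs := H.hs
  have iN : i < N := by
    have e1 : (2 * (i : ℝ)) * s < (2 * N) * s := by nlinarith
    have e2 := lt_of_mul_lt_mul_right e1 hs.le
    have e3 : (i : ℝ) < N := by linarith
    exact_mod_cast e3
  have i3 : 1 / 4 + (2 * i + 1) * s < v 0 := by
    by_contra hcon
    push Not at hcon
    apply hB
    rw [mem_BB]
    exact Or.inr ⟨j, by omega, i, iN, ⟨i1, hcon⟩, ⟨hy.le, hy'.le⟩⟩
  have iN' : i + 1 < N := by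
    have e1 : (2 * (i : ℝ) + 1) * s < (2 * N - 1) * s := by nlinarith
    have e2 := lt_of_mul_lt_mul_right e1 hs.le
    have e3 : (i : ℝ) + 1 < N := by linarith
    exact_mod_cast e3
  exact (ENNReal.ofReal_le_ofReal hA3).trans (H.channel hv jK iN' i3 i2 hy.le hy'.le)

end Ok

namespace Ok

variable {K N : ℕ} {a s h : ℝ}

/-- there is no boundary in free open boxes -/
theorem not_W {x₁ x₂ y₁ y₂ : ℝ} (hF : obox x₁ x₂ y₁ y₂ ⊆ FF K N a s h) {p : Pl}
    (hp : p ∈ obox x₁ x₂ y₁ y₂) : p ∉ WW K N a s h := by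
  rintro (h1 | h1)
  · have h2 := (isClosed_BB (K := K) (N := N) (a := a) (s := s) (h := h)).frontier_subset h1
    exact (hF hp).2 h2
  · apply h1.2
    rw [mem_interior]
    exact ⟨_, fun q hq => (hF hq).1, isOpen_obox _ _ _ _, hp⟩

/-- the left side of a channel -/
theorem W_left (H : Ok K N a s h) {j i : ℕ} (hj : j ≤ K) (hi : i + 1 < N) {z : Pl}
    (h1 : z 0 = 1 / 4 + (2 * i + 1) * s) (h2 : 2 * j * a + a / 2 ≤ z 1)
    (h3 : z 1 ≤ 2 * j * a + a / 2 + h) : z ∈ WW K N a s h := by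
  have ha := H.a_pos
  have hs := H.s_pos
  have hh := H.hh
  have hha := H.hha
  left
  refine mem_frontier_of (x₁ := 1 / 4 + (2 * i + 1) * s) (x₂ := 1 / 4 + (2 * i + 1) * s + s)
    (y₁ := 2 * j * a) (y₂ := (2 * j + 1) * a) (by linarith) (by linarith) ?_ ?_ ?_
  · rw [mem_BB]
    exact Or.inr ⟨j, by omega, i, by omega, ⟨by linarith, by linarith⟩, ⟨h2, h3⟩⟩
  · exact ⟨⟨by linarith, by linarith⟩, ⟨by linarith, by linarith⟩⟩
  · intro p hp
    exact (H.free7 hj hi hp).2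

/-- the right side of a channel -/
theorem W_right (H : Ok K N a s h) {j i : ℕ} (hj : j ≤ K) (hi : i + 1 < N) {z : Pl}
    (h1 : z 0 = 1 / 4 + (2 * i + 1) * s + s) (h2 : 2 * j * a + a / 2 ≤ z 1)
    (h3 : z 1 ≤ 2 * j * a + a / 2 + h) : z ∈ WW K N a s h := by
  have ha := H.a_pos
  have hs := H.s_pos
  have hh := H.hh
  have hha := H.hha
  left
  refine mem_frontier_of (x₁ := 1 / 4 + (2 * i + 1) * s) (x₂ := 1 / 4 + (2 * i + 1) * s + s)
    (y₁ := 2 * j * a) (y₂ := (2 * j + 1) * a) (by linarith) (by linarith) ?_ ?_ ?_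
  · rw [mem_BB]
    refine Or.inr ⟨j, by omega, i + 1, by omega, ⟨?_, ?_⟩, ⟨h2, h3⟩⟩
    · push_cast; linarith
    · push_cast; linarith
  · exact ⟨⟨by linarith, by linarith⟩, ⟨by linarith, by linarith⟩⟩
  · intro p hp
    exact (H.free7 hj hi hp).2

/-- the ceilings -/
theorem W_top (H : Ok K N a s h) {j : ℕ} (hj : j ≤ K) {z : Pl}
    (h1 : z 1 = (2 * j + 1) * a) (h2 : 1 / 8 ≤ z 0) (h3 : z 0 ≤ 7 / 8) : z ∈ WW K N a s h := by
  have ha := H.a_pos
  have hh := H.hh
  have hha := H.hha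
  rcases Nat.lt_or_ge j K with hjK | hjK
  · left
    refine mem_frontier_of (x₁ := 0) (x₂ := 1) (y₁ := 2 * j * a + a / 2 + h)
      (y₂ := (2 * j + 1) * a) (by norm_num) (by linarith) ?_ ?_ ?_
    · rw [mem_BB]
      exact Or.inl ⟨j, hjK, ⟨h2, h3⟩, ⟨h1.ge, by linarith⟩⟩
    · exact ⟨⟨by linarith, by linarith⟩, ⟨by linarith, by linarith⟩⟩
    · intro p hp
      exact (H.free4 hj hp).2
  · right
    have : j = K := by omega
    subst this
    have h4 := H.ha
    refine mem_frontier_of (x₁ := 0) (x₂ := 1) (y₁ := 1) (y₂ := 2) (by norm_num) (by norm_num)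
      ?_ ?_ ?_
    · exact ⟨⟨by linarith, by linarith⟩, ⟨by linarith, by linarith⟩⟩
    · exact ⟨⟨by linarith, by linarith⟩, ⟨by linarith, by linarith⟩⟩
    · intro p hp hp'
      have := hp.2.1
      have := hp'.2.2
      linarith

/-- the floors -/
theorem W_bot (H : Ok K N a s h) {j : ℕ} (hj : j ≤ K) {z : Pl}
    (h1 : z 1 = 2 * j * a) (h2 : 1 / 8 ≤ z 0) (h3 : z 0 ≤ 7 / 8) : z ∈ WW K N a s h := by
  have ha := H.a_pos
  rcases Nat.eq_zero_or_pos j with hj0 | hj0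
  · right
    subst hj0
    have h1' : z 1 = 0 := by rw [h1]; simp
    refine mem_frontier_of (x₁ := 0) (x₂ := 1) (y₁ := -1) (y₂ := 0) (by norm_num) (by norm_num)
      ?_ ?_ ?_
    · exact ⟨⟨by linarith, by linarith⟩, ⟨by linarith, by linarith⟩⟩
    · exact ⟨⟨by linarith, by linarith⟩, ⟨by linarith, by linarith⟩⟩
    · intro p hp hp'
      have := hp.2.2
      have := hp'.2.1
      linarith
  · obtain ⟨j', rfl⟩ : ∃ j', j = j' + 1 := ⟨j - 1, by omega⟩
    left
    refine mem_frontier_of (x₁ := 0) (x₂ := 1) (y₁ := 2 * ((j' + 1 : ℕ) : ℝ) * a)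
      (y₂ := 2 * ((j' + 1 : ℕ) : ℝ) * a + a / 2) (by norm_num) (by linarith) ?_ ?_ ?_
    · rw [mem_BB]
      refine Or.inl ⟨j', by omega, ⟨h2, h3⟩, ⟨?_, ?_⟩⟩
      · rw [h1]; push_cast; nlinarith
      · rw [h1]; push_cast; nlinarith
    · exact ⟨⟨by linarith, by linarith⟩, ⟨by linarith, by linarith⟩⟩
    · intro p hp
      exact (H.free3 hj hp).2

/-- the sight is blocked by the left tooth -/
theorem no_left (H : Ok K N a s h) {j i : ℕ} (hj : j ≤ K) (hi : i + 1 < N) {v u : Pl}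
    (hu : u ∈ VisBd (WW K N a s h) v) (hv0 : 1 / 4 + (2 * i + 1) * s < v 0)
    (hv1 : 2 * j * a + a / 2 ≤ v 1) (hv2 : v 1 ≤ 2 * j * a + a / 2 + h) {t : ℝ} (ht0 : 0 ≤ t)
    (ht1 : t < 1) (h1 : 2 * j * a + a / 2 ≤ v 1 + t * (u 1 - v 1))
    (h2 : v 1 + t * (u 1 - v 1) ≤ 2 * j * a + a / 2 + h)
    (h3 : v 0 + t * (u 0 - v 0) ≤ 1 / 4 + (2 * i + 1) * s) : False := by
  obtain ⟨L, hL⟩ : ∃ L : ℝ, L = 1 / 4 + (2 * i + 1) * s := ⟨_, rfl⟩
  rw [← hL] at hv0 h3
  have hd : 0 < v 0 - u 0 := by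
    by_contra hcon
    push Not at hcon
    nlinarith
  have e0 : (v 0 - L) / (v 0 - u 0) * (v 0 - u 0) = v 0 - L := by field_simp
  have et : (v 0 - L) / (v 0 - u 0) ≤ t := by
    rw [div_le_iff₀ hd]; linarith
  have et0 : 0 ≤ (v 0 - L) / (v 0 - u 0) := div_nonneg (by linarith) hd.le
  obtain ⟨r, hr⟩ : ∃ r : ℝ, r = (v 0 - L) / (v 0 - u 0) := ⟨_, rfl⟩
  rw [← hr] at e0 et et0
  have hz0 : (v + r • (u - v)) 0 = L := by rw [coord0]; linarith
  have hz1 : (v + r • (u - v)) 1 = v 1 + r * (u 1 - v 1) := coord1 _ _ _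
  have key : 2 * j * a + a / 2 ≤ v 1 + r * (u 1 - v 1) ∧
      v 1 + r * (u 1 - v 1) ≤ 2 * j * a + a / 2 + h := by
    rcases le_total (v 1) (u 1) with h4 | h4
    · have e1 : 0 ≤ r * (u 1 - v 1) := mul_nonneg et0 (by linarith)
      have e2 : r * (u 1 - v 1) ≤ t * (u 1 - v 1) := mul_le_mul_of_nonneg_right et (by linarith)
      constructor <;> linarith
    · have e1 : 0 ≤ r * (v 1 - u 1) := mul_nonneg et0 (by linarith)
      have e2 : r * (v 1 - u 1) ≤ t * (v 1 - u 1) := mul_le_mul_of_nonneg_right et (by linarith)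
      constructor <;> linarith
  have hW : v + r • (u - v) ∈ WW K N a s h :=
    H.W_left hj hi (by rw [hz0, hL]) (by rw [hz1]; exact key.1) (by rw [hz1]; exact key.2)
  have h5 := hu.2 r et0 (by linarith) hW
  rw [h5] at hz0
  linarith

/-- the sight is blocked by the right tooth -/
theorem no_right (H : Ok K N a s h) {j i : ℕ} (hj : j ≤ K) (hi : i + 1 < N) {v u : Pl}
    (hu : u ∈ VisBd (WW K N a s h) v) (hv0 : v 0 < 1 / 4 + (2 * i + 1) * s + s)
    (hv1 : 2 * j * a + a / 2 ≤ v 1) (hv2 : v 1 ≤ 2 * j * a + a / 2 + h) {t : ℝ} (ht0 : 0 ≤ t)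
    (ht1 : t < 1) (h1 : 2 * j * a + a / 2 ≤ v 1 + t * (u 1 - v 1))
    (h2 : v 1 + t * (u 1 - v 1) ≤ 2 * j * a + a / 2 + h)
    (h3 : 1 / 4 + (2 * i + 1) * s + s ≤ v 0 + t * (u 0 - v 0)) : False := by
  obtain ⟨L, hL⟩ : ∃ L : ℝ, L = 1 / 4 + (2 * i + 1) * s + s := ⟨_, rfl⟩
  rw [← hL] at hv0 h3
  have hd : 0 < u 0 - v 0 := by
    by_contra hcon
    push Not at hcon
    nlinarith
  have e0 : (L - v 0) / (u 0 - v 0) * (u 0 - v 0) = L - v 0 := by field_simp
  have et : (L - v 0) / (u 0 - v 0) ≤ t := by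
    rw [div_le_iff₀ hd]; linarith
  have et0 : 0 ≤ (L - v 0) / (u 0 - v 0) := div_nonneg (by linarith) hd.le
  obtain ⟨r, hr⟩ : ∃ r : ℝ, r = (L - v 0) / (u 0 - v 0) := ⟨_, rfl⟩
  rw [← hr] at e0 et et0
  have hz0 : (v + r • (u - v)) 0 = L := by rw [coord0]; linarith
  have hz1 : (v + r • (u - v)) 1 = v 1 + r * (u 1 - v 1) := coord1 _ _ _
  have key : 2 * j * a + a / 2 ≤ v 1 + r * (u 1 - v 1) ∧
      v 1 + r * (u 1 - v 1) ≤ 2 * j * a + a / 2 + h := by
    rcases le_total (v 1) (u 1) with h4 | h4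
    · have e1 : 0 ≤ r * (u 1 - v 1) := mul_nonneg et0 (by linarith)
      have e2 : r * (u 1 - v 1) ≤ t * (u 1 - v 1) := mul_le_mul_of_nonneg_right et (by linarith)
      constructor <;> linarith
    · have e1 : 0 ≤ r * (v 1 - u 1) := mul_nonneg et0 (by linarith)
      have e2 : r * (v 1 - u 1) ≤ t * (v 1 - u 1) := mul_le_mul_of_nonneg_right et (by linarith)
      constructor <;> linarith
  have hW : v + r • (u - v) ∈ WW K N a s h :=
    H.W_right hj hi (by rw [hz0, hL]) (by rw [hz1]; exact key.1) (by rw [hz1]; exact key.2)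
  have h5 := hu.2 r et0 (by linarith) hW
  rw [h5] at hz0
  linarith

/-- a narrow cone: if the ray from `v` to `u` leaves the channel between the teeth, it is steep -/
theorem cone {x p D g E w : ℝ} {L : ℝ} (hg : 0 < g) (hE : 0 < E)
    (hgh : D / 4 ≤ g) (hD : 0 < D) (hx1 : L < x) (hx2 : x < L + w)
    (h1 : L < x + g / E * (p - x)) (h2 : x + g / E * (p - x) < L + w) :
    |p - x| ≤ 4 * (w / D) * E := by
  have e1 : |g / E * (p - x)| ≤ w := by
    rw [abs_le]; constructor <;> linarith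
  rw [abs_mul, abs_of_pos (div_pos hg hE), div_mul_eq_mul_div, div_le_iff₀ hE] at e1
  have e2 : D / 4 * |p - x| ≤ g * |p - x| := mul_le_mul_of_nonneg_right hgh (abs_nonneg _)
  have e3 : D * |p - x| ≤ 4 * w * E := by linarith
  have e4 : 4 * (w / D) * E = (4 * w * E) / D := by ring
  rw [e4, le_div_iff₀ hD]
  linarith

/-- convex combinations stay in intervals -/
theorem between {m M x y t : ℝ} (ht0 : 0 ≤ t) (ht1 : t ≤ 1) (h1 : m ≤ x) (h2 : x ≤ M)
    (h3 : m ≤ y) (h4 : y ≤ M) : m ≤ x + t * (y - x) ∧ x + t * (y - x) ≤ M := by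
  have e1 : 0 ≤ (1 - t) * (x - m) := mul_nonneg (by linarith) (by linarith)
  have e2 : 0 ≤ t * (y - m) := mul_nonneg ht0 (by linarith)
  have e3 : 0 ≤ (1 - t) * (M - x) := mul_nonneg (by linarith) (by linarith)
  have e4 : 0 ≤ t * (M - y) := mul_nonneg ht0 (by linarith)
  constructor <;> linarith

/-- the visible boundary of a point in the middle of a channel -/
theorem visible (H : Ok K N a s h) {j i : ℕ} (hj : j ≤ K) (hi : i + 1 < N) {v u : Pl}
    (hu : u ∈ VisBd (WW K N a s h) v) (hv0 : 1 / 4 + (2 * i + 1) * s < v 0)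
    (hv0' : v 0 < 1 / 4 + (2 * i + 1) * s + s)
    (hv1 : 2 * j * a + a / 2 + h / 4 < v 1) (hv2 : v 1 < 2 * j * a + a / 2 + 3 * h / 4) :
    (u 0 = 1 / 4 + (2 * i + 1) * s ∧ 2 * j * a + a / 2 ≤ u 1 ∧ u 1 ≤ 2 * j * a + a / 2 + h) ∨
    (u 0 = 1 / 4 + (2 * i + 1) * s + s ∧ 2 * j * a + a / 2 ≤ u 1 ∧
      u 1 ≤ 2 * j * a + a / 2 + h) ∨
    (u 1 = (2 * j + 1) * a ∧ v 0 - 4 * (s / h) * a ≤ u 0 ∧ u 0 ≤ v 0 + 4 * (s / h) * a) ∨
    (u 1 = 2 * j * a ∧ v 0 - 4 * (s / h) * a ≤ u 0 ∧ u 0 ≤ v 0 + 4 * (s / h) * a) := by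
  have ha := H.a_pos
  have hs := H.s_pos
  have hh := H.hh
  have hha := H.hha
  have hsa := H.hsa
  have hLle := H.tooth_le hi
  push_cast at hLle
  have hsh : 0 < s / h := by positivity
  obtain ⟨L, hL⟩ : ∃ L : ℝ, L = 1 / 4 + (2 * i + 1) * s := ⟨_, rfl⟩
  obtain ⟨m, hm⟩ : ∃ m : ℝ, m = 2 * j * a + a / 2 := ⟨_, rfl⟩
  have hL0 : 1 / 4 ≤ L := by
    rw [hL]
    have : 0 ≤ (2 * (i : ℝ) + 1) * s := by positivity
    linarith
  have hL2 : L + s ≤ 3 / 4 := by rw [hL]; linarith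
  have nl : ∀ {t : ℝ}, 0 ≤ t → t < 1 → m ≤ v 1 + t * (u 1 - v 1) → v 1 + t * (u 1 - v 1) ≤ m + h →
      v 0 + t * (u 0 - v 0) ≤ L → False := by
    intro t ht0 ht1 h1 h2 h3
    exact H.no_left hj hi hu hv0 (by linarith) (by linarith) ht0 ht1 (by linarith) (by linarith)
      (by linarith)
  have nr : ∀ {t : ℝ}, 0 ≤ t → t < 1 → m ≤ v 1 + t * (u 1 - v 1) → v 1 + t * (u 1 - v 1) ≤ m + h →
      L + s ≤ v 0 + t * (u 0 - v 0) → False := by
    intro t ht0 ht1 h1 h2 h3
    exact H.no_right hj hi hu hv0' (by linarith) (by linarith) ht0 ht1 (by linarith) (by linarith)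
      (by linarith)
  rw [← hL] at hv0 hv0' ⊢
  rw [← hm] at hv1 hv2 ⊢
  rcases lt_or_ge (m + h) (u 1) with hup | hup
  · -- upwards
    obtain ⟨g, hg⟩ : ∃ g : ℝ, g = m + h - v 1 := ⟨_, rfl⟩
    obtain ⟨E, hE⟩ : ∃ E : ℝ, E = u 1 - v 1 := ⟨_, rfl⟩
    have hg0 : 0 < g := by linarith
    have hE0 : 0 < E := by linarith
    have hgE : g < E := by linarith
    have ht : g / E < 1 := (div_lt_one hE0).2 hgE
    have ht0 : 0 ≤ g / E := by positivity
    have hz : v 1 + g / E * (u 1 - v 1) = m + h := by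
      rw [← hE, div_mul_cancel₀ _ hE0.ne', hg]; ring
    have c1 : L < v 0 + g / E * (u 0 - v 0) := by
      by_contra hcon
      push Not at hcon
      exact nl ht0 ht (by linarith) (by linarith) hcon
    have c2 : v 0 + g / E * (u 0 - v 0) < L + s := by
      by_contra hcon
      push Not at hcon
      exact nr ht0 ht (by linarith) (by linarith) hcon
    have hc := cone (D := h) hg0 hE0 (by linarith) hh hv0 hv0' c1 c2
    have htop : (2 * j + 1) * a = m + a / 2 := by rw [hm]; ring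
    rcases lt_trichotomy (u 1) ((2 * j + 1) * a) with hq | hq | hq
    · exfalso
      have hE1 : E ≤ a := by linarith
      have e1 : 4 * (s / h) * E ≤ 4 * (s / h) * a := mul_le_mul_of_nonneg_left hE1 (by positivity)
      rw [abs_le] at hc
      refine not_W (H.free4 hj) (p := u) ?_ hu.1
      exact ⟨⟨by linarith, by linarith⟩, ⟨by linarith, by linarith⟩⟩
    · right; right; left
      have hE1 : E ≤ a := by linarith
      have e1 : 4 * (s / h) * E ≤ 4 * (s / h) * a := mul_le_mul_of_nonneg_left hE1 (by positivity)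
      rw [abs_le] at hc
      exact ⟨hq, by linarith, by linarith⟩
    · exfalso
      obtain ⟨f, hf⟩ : ∃ f : ℝ, f = (2 * j + 1) * a - v 1 := ⟨_, rfl⟩
      have hf0 : 0 < f := by linarith
      have hfa : f ≤ a := by linarith
      have hfE : f < E := by linarith
      have hfE1 : f / E < 1 := (div_lt_one hE0).2 hfE
      have hfE0 : 0 ≤ f / E := by positivity
      have hz1 : (v + (f / E) • (u - v)) 1 = (2 * j + 1) * a := by
        rw [coord1, ← hE, div_mul_cancel₀ _ hE0.ne', hf]; ring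
      have hz0 : |f / E * (u 0 - v 0)| ≤ 4 * (s / h) * a := by
        rw [abs_mul, abs_of_nonneg hfE0]
        calc f / E * |u 0 - v 0| ≤ f / E * (4 * (s / h) * E) :=
              mul_le_mul_of_nonneg_left hc hfE0
          _ = 4 * (s / h) * f := by field_simp
          _ ≤ 4 * (s / h) * a := mul_le_mul_of_nonneg_left hfa (by positivity)
      rw [abs_le] at hz0
      have hW : v + (f / E) • (u - v) ∈ WW K N a s h := by
        apply H.W_top hj hz1
        · rw [coord0]; linarith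
        · rw [coord0]; linarith
      have h5 := hu.2 _ hfE0 hfE1 hW
      rw [h5] at hz1
      linarith
  rcases lt_or_ge (u 1) m with hdn | hdn
  · -- downwards
    obtain ⟨g, hg⟩ : ∃ g : ℝ, g = v 1 - m := ⟨_, rfl⟩
    obtain ⟨E, hE⟩ : ∃ E : ℝ, E = v 1 - u 1 := ⟨_, rfl⟩
    have hg0 : 0 < g := by linarith
    have hE0 : 0 < E := by linarith
    have hgE : g < E := by linarith
    have ht : g / E < 1 := (div_lt_one hE0).2 hgE
    have ht0 : 0 ≤ g / E := by positivity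
    have hz : v 1 + g / E * (u 1 - v 1) = m := by
      have : u 1 - v 1 = -E := by linarith
      rw [this, mul_neg, div_mul_cancel₀ _ hE0.ne', hg]; ring
    have c1 : L < v 0 + g / E * (u 0 - v 0) := by
      by_contra hcon
      push Not at hcon
      exact nl ht0 ht (by linarith) (by linarith) hcon
    have c2 : v 0 + g / E * (u 0 - v 0) < L + s := by
      by_contra hcon
      push Not at hcon
      exact nr ht0 ht (by linarith) (by linarith) hcon
    have hc := cone (D := h) hg0 hE0 (by linarith) hh hv0 hv0' c1 c2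
    have hbot : 2 * j * a = m - a / 2 := by rw [hm]; ring
    rcases lt_trichotomy (u 1) (2 * j * a) with hq | hq | hq
    · exfalso
      obtain ⟨f, hf⟩ : ∃ f : ℝ, f = v 1 - 2 * j * a := ⟨_, rfl⟩
      have hf0 : 0 < f := by linarith
      have hfa : f ≤ a := by linarith
      have hfE : f < E := by linarith
      have hfE1 : f / E < 1 := (div_lt_one hE0).2 hfE
      have hfE0 : 0 ≤ f / E := by positivity
      have hz1 : (v + (f / E) • (u - v)) 1 = 2 * j * a := by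
        have : u 1 - v 1 = -E := by linarith
        rw [coord1, this, mul_neg, div_mul_cancel₀ _ hE0.ne', hf]; ring
      have hz0 : |f / E * (u 0 - v 0)| ≤ 4 * (s / h) * a := by
        rw [abs_mul, abs_of_nonneg hfE0]
        calc f / E * |u 0 - v 0| ≤ f / E * (4 * (s / h) * E) :=
              mul_le_mul_of_nonneg_left hc hfE0
          _ = 4 * (s / h) * f := by field_simp
          _ ≤ 4 * (s / h) * a := mul_le_mul_of_nonneg_left hfa (by positivity)
      rw [abs_le] at hz0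
      have hW : v + (f / E) • (u - v) ∈ WW K N a s h := by
        apply H.W_bot hj hz1
        · rw [coord0]; linarith
        · rw [coord0]; linarith
      have h5 := hu.2 _ hfE0 hfE1 hW
      rw [h5] at hz1
      linarith
    · right; right; right
      have hE1 : E ≤ a := by linarith
      have e1 : 4 * (s / h) * E ≤ 4 * (s / h) * a := mul_le_mul_of_nonneg_left hE1 (by positivity)
      rw [abs_le] at hc
      exact ⟨hq, by linarith, by linarith⟩
    · exfalso
      have hE1 : E ≤ a := by linarith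
      have e1 : 4 * (s / h) * E ≤ 4 * (s / h) * a := mul_le_mul_of_nonneg_left hE1 (by positivity)
      rw [abs_le] at hc
      refine not_W (H.free3 hj) (p := u) ?_ hu.1
      exact ⟨⟨by linarith, by linarith⟩, ⟨by linarith, by linarith⟩⟩
  -- inside
  rcases lt_trichotomy (u 0) L with hl | hl | hl
  · exfalso
    have hd : 0 < v 0 - u 0 := by linarith
    obtain ⟨t, ht⟩ : ∃ t : ℝ, t = (v 0 - L) / (v 0 - u 0) := ⟨_, rfl⟩
    have e0 : t * (v 0 - u 0) = v 0 - L := by rw [ht]; field_simp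
    have et : t < 1 := by rw [ht, div_lt_one hd]; linarith
    have et0 : 0 ≤ t := by rw [ht]; exact div_nonneg (by linarith) hd.le
    have hb := between (m := m) (M := m + h) (x := v 1) (y := u 1) et0 et.le (by linarith)
      (by linarith) hdn hup
    exact nl et0 et hb.1 hb.2 (by linarith)
  · left
    exact ⟨hl, hdn, hup⟩
  · rcases lt_trichotomy (u 0) (L + s) with hr | hr | hr
    · exfalso
      refine not_W (H.free7 hj hi) (p := u) ?_ hu.1
      rw [← hL]
      exact ⟨⟨hl, hr⟩, ⟨by linarith, by linarith⟩⟩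
    · right; left
      exact ⟨hr, hdn, hup⟩
    · exfalso
      have hd : 0 < u 0 - v 0 := by linarith
      obtain ⟨t, ht⟩ : ∃ t : ℝ, t = (L + s - v 0) / (u 0 - v 0) := ⟨_, rfl⟩
      have e0 : t * (u 0 - v 0) = L + s - v 0 := by rw [ht]; field_simp
      have et : t < 1 := by rw [ht, div_lt_one hd]; linarith
      have et0 : 0 ≤ t := by rw [ht]; exact div_nonneg (by linarith) hd.le
      have hb := between (m := m) (M := m + h) (x := v 1) (y := u 1) et0 et.le (by linarith)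
        (by linarith) hdn hup
      exact nr et0 et hb.1 hb.2 (by linarith)

end Ok

/-! ### lengths -/

theorem length_v {x y₁ y₂ : ℝ} (hy : y₁ < y₂) :
    μH[1] {p : Pl | p 0 = x ∧ y₁ ≤ p 1 ∧ p 1 ≤ y₂} ≤ ENNReal.ofReal (y₂ - y₁) := by
  have hsub : {p : Pl | p 0 = x ∧ y₁ ≤ p 1 ∧ p 1 ≤ y₂} ⊆ segment ℝ !₂[x, y₁] !₂[x, y₂] := by
    rintro p ⟨h1, h2, h3⟩
    rw [segment_eq_image']
    have hd : y₂ - y₁ ≠ 0 := by linarith
    refine ⟨(p 1 - y₁) / (y₂ - y₁), ⟨div_nonneg (by linarith) (by linarith), ?_⟩, ?_⟩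
    · rw [div_le_one (by linarith)]; linarith
    · ext i
      fin_cases i
      · simp [h1]
      · simp [div_mul_cancel₀ _ hd]
  refine (measure_mono hsub).trans ?_
  rw [hausdorffMeasure_segment, edist_dist, EuclideanSpace.dist_eq]
  simp only [Fin.sum_univ_two]
  apply ENNReal.ofReal_le_ofReal
  simp [Real.dist_eq, Real.sqrt_sq_eq_abs]
  rw [abs_sub_comm, abs_of_pos (by linarith)]

theorem length_h {y x₁ x₂ : ℝ} (hx : x₁ < x₂) :
    μH[1] {p : Pl | p 1 = y ∧ x₁ ≤ p 0 ∧ p 0 ≤ x₂} ≤ ENNReal.ofReal (x₂ - x₁) := by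
  have hsub : {p : Pl | p 1 = y ∧ x₁ ≤ p 0 ∧ p 0 ≤ x₂} ⊆ segment ℝ !₂[x₁, y] !₂[x₂, y] := by
    rintro p ⟨h1, h2, h3⟩
    rw [segment_eq_image']
    have hd : x₂ - x₁ ≠ 0 := by linarith
    refine ⟨(p 0 - x₁) / (x₂ - x₁), ⟨div_nonneg (by linarith) (by linarith), ?_⟩, ?_⟩
    · rw [div_le_one (by linarith)]; linarith
    · ext i
      fin_cases i
      · simp [div_mul_cancel₀ _ hd]
      · simp [h1]
  refine (measure_mono hsub).trans ?_
  rw [hausdorffMeasure_segment, edist_dist, EuclideanSpace.dist_eq]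
  simp only [Fin.sum_univ_two]
  apply ENNReal.ofReal_le_ofReal
  simp [Real.dist_eq, Real.sqrt_sq_eq_abs]
  rw [abs_sub_comm, abs_of_pos (by linarith)]

/-- The free space of the unit square with obstacles `O i`. -/
def FreeSp {ι : Type} (O : ι → Set Pl) : Set Pl := rect 0 1 0 1 \ ⋃ i, O i

/-- The boundaries of the obstacles and the sides of the square. -/
def Bd {ι : Type} (O : ι → Set Pl) : Set Pl := frontier (⋃ i, O i) ∪ frontier (rect 0 1 0 1)

/-- The exceptional set: the free points with visible boundary of length less than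
`c √(ε μ(F))`. -/
def Exc {ι : Type} (O : ι → Set Pl) (c ε : ℝ) : Set Pl :=
  {v | v ∈ FreeSp O ∧
    μH[1] (VisBd (Bd O) v) < ENNReal.ofReal (c * √(ε * (volume (FreeSp O)).toReal))}

namespace Ok

variable {K N : ℕ} {a s h : ℝ}

/-- the length of the visible boundary of a point in the middle of a channel -/
theorem length_le (H : Ok K N a s h) {j i : ℕ} (hj : j ≤ K) (hi : i + 1 < N) {v : Pl}
    (hv : v ∈ obox (1 / 4 + (2 * i + 1) * s) (1 / 4 + (2 * i + 1) * s + s)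
      (2 * j * a + a / 2 + h / 4) (2 * j * a + a / 2 + 3 * h / 4)) :
    μH[1] (VisBd (WW K N a s h) v) ≤ ENNReal.ofReal (2 * h + 16 * (s / h) * a) := by
  have ha := H.a_pos
  have hs := H.s_pos
  have hh := H.hh
  have hr : 0 < 4 * (s / h) * a := by positivity
  obtain ⟨⟨v1, v2⟩, ⟨v3, v4⟩⟩ := hv
  have hsub : VisBd (WW K N a s h) v ⊆
      ({p : Pl | p 0 = 1 / 4 + (2 * i + 1) * s ∧ 2 * j * a + a / 2 ≤ p 1 ∧
        p 1 ≤ 2 * j * a + a / 2 + h} ∪
      {p : Pl | p 0 = 1 / 4 + (2 * i + 1) * s + s ∧ 2 * j * a + a / 2 ≤ p 1 ∧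
        p 1 ≤ 2 * j * a + a / 2 + h}) ∪
      ({p : Pl | p 1 = (2 * j + 1) * a ∧ v 0 - 4 * (s / h) * a ≤ p 0 ∧
        p 0 ≤ v 0 + 4 * (s / h) * a} ∪
      {p : Pl | p 1 = 2 * j * a ∧ v 0 - 4 * (s / h) * a ≤ p 0 ∧
        p 0 ≤ v 0 + 4 * (s / h) * a}) := by
    intro u hu
    rcases H.visible hj hi hu v1 v2 v3 v4 with h1 | h1 | h1 | h1
    · exact Or.inl (Or.inl h1)
    · exact Or.inl (Or.inr h1)
    · exact Or.inr (Or.inl h1)
    · exact Or.inr (Or.inr h1)
  have b1 := length_v (x := 1 / 4 + (2 * i + 1) * s) (y₁ := 2 * j * a + a / 2)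
    (y₂ := 2 * j * a + a / 2 + h) (by linarith)
  have b2 := length_v (x := 1 / 4 + (2 * i + 1) * s + s) (y₁ := 2 * j * a + a / 2)
    (y₂ := 2 * j * a + a / 2 + h) (by linarith)
  have b3 := length_h (y := (2 * j + 1) * a) (x₁ := v 0 - 4 * (s / h) * a)
    (x₂ := v 0 + 4 * (s / h) * a) (by linarith)
  have b4 := length_h (y := 2 * j * a) (x₁ := v 0 - 4 * (s / h) * a)
    (x₂ := v 0 + 4 * (s / h) * a) (by linarith)
  refine (measure_mono hsub).trans ((measure_union_le _ _).trans ?_)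
  refine (add_le_add ((measure_union_le _ _).trans (add_le_add b1 b2))
    ((measure_union_le _ _).trans (add_le_add b3 b4))).trans ?_
  rw [← ENNReal.ofReal_add (by linarith) (by linarith), ← ENNReal.ofReal_add (by linarith)
    (by linarith), ← ENNReal.ofReal_add (by linarith) (by linarith)]
  apply ENNReal.ofReal_le_ofReal
  linarith

/-- the area of the free space -/
theorem free_area (H : Ok K N a s h) : ENNReal.ofReal (1 / 2) ≤ volume (FF K N a s h) := by
  have ha := H.a_pos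
  have hs := H.s_pos
  have hh := H.hh
  have hha := H.hha
  have h1 : volume (rect 0 1 0 1) = ENNReal.ofReal 1 := by
    rw [volume_rect (by norm_num)]; norm_num
  have h2 : volume (BB K N a s h) ≤ ENNReal.ofReal (1 / 2) := by
    refine (measure_iUnion_le _).trans ?_
    rw [tsum_fintype, Fintype.sum_sum_type]
    have e1 : ∀ j : Fin K, volume (Ob K N a s h (Sum.inl j)) = ENNReal.ofReal (3 / 4 * a) := by
      intro j
      show volume (wall a j) = _
      unfold wall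
      rw [volume_rect (by norm_num)]
      congr 1
      ring
    have e2 : ∀ q : Fin (K + 1) × Fin N, volume (Ob K N a s h (Sum.inr q)) =
        ENNReal.ofReal (s * h) := by
      intro q
      show volume (tooth a s h q.1 q.2) = _
      unfold tooth
      rw [volume_rect (by linarith)]
      congr 1
      ring
    rw [Finset.sum_congr rfl fun j _ => e1 j, Finset.sum_congr rfl fun q _ => e2 q,
      Finset.sum_const, Finset.sum_const, Finset.card_univ, Finset.card_univ, Fintype.card_fin,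
      Fintype.card_prod, Fintype.card_fin, Fintype.card_fin, nsmul_eq_mul, nsmul_eq_mul,
      ← ENNReal.ofReal_natCast, ← ENNReal.ofReal_natCast, ← ENNReal.ofReal_mul (by positivity),
      ← ENNReal.ofReal_mul (by positivity), ← ENNReal.ofReal_add (by positivity) (by positivity)]
    apply ENNReal.ofReal_le_ofReal
    push_cast
    have g1 := H.ha
    have g2 := H.hs
    have g3 : ((K : ℝ) + 1) * N * (s * h) = ((K : ℝ) + 1) * h / 4 := by
      calc ((K : ℝ) + 1) * N * (s * h) = ((K : ℝ) + 1) * h / 4 * (4 * N * s) := by ring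
        _ = _ := by rw [g2, mul_one]
    have g4 : ((K : ℝ) + 1) * h ≤ ((K : ℝ) + 1) * (a / 4) :=
      mul_le_mul_of_nonneg_left hha (by positivity)
    have g5 : (0 : ℝ) ≤ K := Nat.cast_nonneg _
    have g6 : 0 ≤ (K : ℝ) * a := by positivity
    nlinarith
  have h3 : volume (rect 0 1 0 1) ≤ volume (FF K N a s h) + volume (BB K N a s h) := by
    refine (measure_mono ?_).trans (measure_union_le _ _)
    intro p hp
    by_cases hB : p ∈ BB K N a s h
    · exact Or.inr hB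
    · exact Or.inl ⟨hp, hB⟩
  have h4 : ENNReal.ofReal 1 ≤ volume (FF K N a s h) + ENNReal.ofReal (1 / 2) := by
    rw [← h1]
    exact h3.trans (add_le_add le_rfl h2)
  have h5 : ENNReal.ofReal 1 = ENNReal.ofReal (1 / 2) + ENNReal.ofReal (1 / 2) := by
    rw [← ENNReal.ofReal_add (by norm_num) (by norm_num)]
    norm_num
  rw [h5] at h4
  exact (ENNReal.add_le_add_iff_right ENNReal.ofReal_ne_top).1 h4

theorem free_le : volume (FF K N a s h) ≤ 1 := by
  have h1 : volume (rect 0 1 0 1) = 1 := by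
    rw [volume_rect (by norm_num)]; norm_num
  rw [← h1]
  exact measure_mono sdiff_subset

/-- the area of the middle parts of the channels -/
theorem exc_area (H : Ok K N a s h) {c ε : ℝ}
    (hc : 2 * h + 16 * (s / h) * a < c * √(ε * (volume (FF K N a s h)).toReal)) :
    ENNReal.ofReal (((K : ℝ) + 1) * (N - 1 : ℕ) * (s * (h / 2))) ≤
      volume (Exc (Ob K N a s h) c ε) := by
  have ha := H.a_pos
  have hs := H.s_pos
  have hh := H.hh
  have hha := H.hha
  obtain ⟨G, hG⟩ : ∃ G : Fin (K + 1) × Fin (N - 1) → Set Pl, G = fun q =>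
      obox (1 / 4 + (2 * (q.2 : ℕ) + 1) * s) (1 / 4 + (2 * (q.2 : ℕ) + 1) * s + s)
      (2 * (q.1 : ℕ) * a + a / 2 + h / 4) (2 * (q.1 : ℕ) * a + a / 2 + 3 * h / 4) := ⟨_, rfl⟩
  have hsub : (⋃ q, G q) ⊆ Exc (Ob K N a s h) c ε := by
    apply Set.iUnion_subset
    rintro ⟨j, i⟩ v hv
    rw [hG] at hv
    have hj : (j : ℕ) ≤ K := by have := j.2; omega
    have hi : (i : ℕ) + 1 < N := by have := i.2; omega
    refine ⟨?_, ?_⟩
    · have h1 : v ∈ FF K N a s h := by
        apply H.free7 hj hi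
        obtain ⟨⟨v1, v2⟩, ⟨v3, v4⟩⟩ := hv
        exact ⟨⟨v1, v2⟩, ⟨by linarith, by linarith⟩⟩
      exact h1
    · refine lt_of_le_of_lt (H.length_le hj hi hv) ?_
      have h0 : 0 ≤ 2 * h + 16 * (s / h) * a := by positivity
      exact (ENNReal.ofReal_lt_ofReal_iff (lt_of_le_of_lt h0 hc)).2 hc
  refine le_trans (le_of_eq ?_) (measure_mono hsub)
  rw [measure_iUnion]
  · have e1 : ∀ q, volume (G q) = ENNReal.ofReal (s * (h / 2)) := by
      intro q
      rw [hG]
      simp only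
      rw [volume_obox (by linarith)]
      congr 1
      ring
    rw [tsum_fintype, Finset.sum_congr rfl fun q _ => e1 q, Finset.sum_const, Finset.card_univ,
      Fintype.card_prod, Fintype.card_fin, Fintype.card_fin, nsmul_eq_mul,
      ← ENNReal.ofReal_natCast, ← ENNReal.ofReal_mul (by positivity)]
    push_cast
    rfl
  · rintro ⟨j, i⟩ ⟨j', i'⟩ hne
    rw [Function.onFun, Set.disjoint_left]
    intro p hp hp'
    apply hne
    rw [hG] at hp hp'
    obtain ⟨⟨a1, a2⟩, ⟨a3, a4⟩⟩ := hp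
    obtain ⟨⟨b1, b2⟩, ⟨b3, b4⟩⟩ := hp'
    simp only at a1 a2 a3 a4 b1 b2 b3 b4
    have e1 : (2 * ((i : ℕ) : ℝ) + 1) * s < (2 * (i' : ℕ) + 2) * s := by linarith
    have e2 : (2 * ((i' : ℕ) : ℝ) + 1) * s < (2 * (i : ℕ) + 2) * s := by linarith
    have e3 : (2 * ((j : ℕ) : ℝ)) * a < (2 * (j' : ℕ) + 1) * a := by linarith
    have e4 : (2 * ((j' : ℕ) : ℝ)) * a < (2 * (j : ℕ) + 1) * a := by linarith
    have f1 := lt_of_mul_lt_mul_right e1 hs.le
    have f2 := lt_of_mul_lt_mul_right e2 hs.le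
    have f3 := lt_of_mul_lt_mul_right e3 ha.le
    have f4 := lt_of_mul_lt_mul_right e4 ha.le
    have g1 : (2 * (i : ℕ) + 1) < (2 * (i' : ℕ) + 2) := by exact_mod_cast f1
    have g2 : (2 * (i' : ℕ) + 1) < (2 * (i : ℕ) + 2) := by exact_mod_cast f2
    have g3 : (2 * (j : ℕ)) < (2 * (j' : ℕ) + 1) := by exact_mod_cast f3
    have g4 : (2 * (j' : ℕ)) < (2 * (j : ℕ) + 1) := by exact_mod_cast f4
    have k1 : i = i' := by ext; omega
    have k2 : j = j' := by ext; omega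
    rw [k1, k2]
  · intro q
    rw [hG]
    exact (isOpen_obox _ _ _ _).measurableSet

/-- the obstacles are disjoint -/
theorem disj (H : Ok K N a s h) : Pairwise fun i j => Disjoint (Ob K N a s h i) (Ob K N a s h j) := by
  have ha := H.a_pos
  have hs := H.s_pos
  have hh := H.hh
  have hha := H.hha
  have wt : ∀ (j j' i : ℕ), Disjoint (wall a j) (tooth a s h j' i) := by
    intro j j' i
    rw [Set.disjoint_left]
    intro p hp hp'
    obtain ⟨-, ⟨a1, a2⟩⟩ := hp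
    obtain ⟨-, ⟨b1, b2⟩⟩ := hp'
    have e1 : (2 * (j : ℝ) + 1) * a < (2 * j' + 1) * a := by linarith
    have e2 : (2 * (j' : ℝ)) * a < (2 * j + 2) * a := by linarith
    have f1 := lt_of_mul_lt_mul_right e1 ha.le
    have f2 := lt_of_mul_lt_mul_right e2 ha.le
    have g1 : (2 * j + 1) < (2 * j' + 1) := by exact_mod_cast f1
    have g2 : 2 * j' < 2 * j + 2 := by exact_mod_cast f2
    omega
  rintro (j | ⟨j, i⟩) (j' | ⟨j', i'⟩) hne
  · show Disjoint (wall a j) (wall a j')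
    rw [Set.disjoint_left]
    intro p hp hp'
    obtain ⟨-, ⟨a1, a2⟩⟩ := hp
    obtain ⟨-, ⟨b1, b2⟩⟩ := hp'
    have e1 : (2 * ((j : ℕ) : ℝ) + 1) * a ≤ (2 * (j' : ℕ) + 2) * a := by linarith
    have e2 : (2 * ((j' : ℕ) : ℝ) + 1) * a ≤ (2 * (j : ℕ) + 2) * a := by linarith
    have f1 := le_of_mul_le_mul_right e1 ha
    have f2 := le_of_mul_le_mul_right e2 ha
    have g1 : (2 * (j : ℕ) + 1) ≤ (2 * (j' : ℕ) + 2) := by exact_mod_cast f1
    have g2 : (2 * (j' : ℕ) + 1) ≤ (2 * (j : ℕ) + 2) := by exact_mod_cast f2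
    apply hne
    have : j = j' := by ext; omega
    rw [this]
  · exact wt j j' i'
  · exact (wt j' j i).symm
  · show Disjoint (tooth a s h j i) (tooth a s h j' i')
    rw [Set.disjoint_left]
    intro p hp hp'
    obtain ⟨⟨c1, c2⟩, ⟨a1, a2⟩⟩ := hp
    obtain ⟨⟨d1, d2⟩, ⟨b1, b2⟩⟩ := hp'
    have e1 : (2 * ((j : ℕ) : ℝ)) * a < (2 * (j' : ℕ) + 1) * a := by linarith
    have e2 : (2 * ((j' : ℕ) : ℝ)) * a < (2 * (j : ℕ) + 1) * a := by linarith
    have e3 : (2 * ((i : ℕ) : ℝ)) * s < (2 * (i' : ℕ) + 2) * s := by linarith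
    have e4 : (2 * ((i' : ℕ) : ℝ)) * s < (2 * (i : ℕ) + 2) * s := by linarith
    have f1 := lt_of_mul_lt_mul_right e1 ha.le
    have f2 := lt_of_mul_lt_mul_right e2 ha.le
    have f3 := lt_of_mul_lt_mul_right e3 hs.le
    have f4 := lt_of_mul_lt_mul_right e4 hs.le
    have g1 : (2 * (j : ℕ)) < (2 * (j' : ℕ) + 1) := by exact_mod_cast f1
    have g2 : (2 * (j' : ℕ)) < (2 * (j : ℕ) + 1) := by exact_mod_cast f2
    have g3 : (2 * (i : ℕ)) < (2 * (i' : ℕ) + 2) := by exact_mod_cast f3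
    have g4 : (2 * (i' : ℕ)) < (2 * (i : ℕ) + 2) := by exact_mod_cast f4
    apply hne
    have k1 : i = i' := by ext; omega
    have k2 : j = j' := by ext; omega
    rw [k1, k2]

/-- the obstacles are rectangles in the interior of the square -/
theorem inside (H : Ok K N a s h) (i : Fin K ⊕ (Fin (K + 1) × Fin N)) :
    ∃ x₁ x₂ y₁ y₂ : ℝ, 0 < x₁ ∧ x₁ < x₂ ∧ x₂ < 1 ∧ 0 < y₁ ∧ y₁ < y₂ ∧ y₂ < 1 ∧
      Ob K N a s h i = rect x₁ x₂ y₁ y₂ := by
  have ha := H.a_pos
  have hs := H.s_pos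
  have hh := H.hh
  have hha := H.hha
  rcases i with j | ⟨j, i⟩
  · have h1 : ((j : ℕ) : ℝ) + 1 ≤ K := by exact_mod_cast j.2
    have h2 := H.ha
    refine ⟨1 / 8, 7 / 8, _, _, by norm_num, by norm_num, by norm_num, by positivity, ?_, ?_, rfl⟩
    · linarith
    · nlinarith
  · have h1 := H.tooth_le i.2
    have h2 := H.strip_le (Nat.lt_succ_iff.1 j.2)
    refine ⟨_, _, _, _, by positivity, ?_, ?_, by positivity, ?_, ?_, rfl⟩
    · linarith
    · linarith
    · linarith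
    · linarith

end Ok

theorem finite_free {K N : ℕ} {a s h : ℝ} : volume (FF K N a s h) ≠ ⊤ :=
  (lt_of_le_of_lt Ok.free_le ENNReal.one_lt_top).ne

/-- **Theorem.** For all `c, C > 0` there are `ε ∈ (0, 1]` and a finite family of pairwise disjoint
closed rectangles in the interior of the unit square, such that the free space `F` has area at
least `1 / 2`, every free point sees an area of at least `ε μ(F)`, and the exceptional set of the
free points with visible boundary of length less than `c √(ε μ(F))` has area greater than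
`C √ε μ(F)`. -/
theorem result : ∀ c C : ℝ, 0 < c → 0 < C → ∃ ε : ℝ, 0 < ε ∧ ε ≤ 1 ∧
    ∃ (ι : Type) (_ : Fintype ι) (O : ι → Set Pl),
      (∀ i, ∃ x₁ x₂ y₁ y₂ : ℝ, 0 < x₁ ∧ x₁ < x₂ ∧ x₂ < 1 ∧ 0 < y₁ ∧ y₁ < y₂ ∧ y₂ < 1 ∧
        O i = rect x₁ x₂ y₁ y₂) ∧
      (Pairwise fun i j => Disjoint (O i) (O j)) ∧
      ENNReal.ofReal (1 / 2) ≤ volume (FreeSp O) ∧
      (∀ v ∈ FreeSp O, ENNReal.ofReal ε * volume (FreeSp O) ≤ volume (Vis (FreeSp O) v)) ∧
      ENNReal.ofReal (C * √ε) * volume (FreeSp O) < volume (Exc O c ε) := by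
  intro c C hc hC
  obtain ⟨K, hK⟩ := exists_nat_gt (128 * C / c)
  obtain ⟨a, ha⟩ : ∃ a : ℝ, a = 1 / (2 * K + 1) := ⟨_, rfl⟩
  have hK0 : (0 : ℝ) ≤ K := Nat.cast_nonneg _
  have ha1 : (2 * K + 1) * a = 1 := by rw [ha]; field_simp
  have ha0 : 0 < a := by rw [ha]; positivity
  have hd5 : 0 < a ^ 2 / (32 * c * (256 * a / c ^ 2 + 3)) := by positivity
  obtain ⟨δ, hδ⟩ : ∃ δ : ℝ, δ = min (1 / 8) (min (a / 4) (min (2 * a / c) (min (1 / c)
    (a ^ 2 / (32 * c * (256 * a / c ^ 2 + 3)))))) := ⟨_, rfl⟩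
  have hδ0 : 0 < δ := by
    rw [hδ]
    refine lt_min (by norm_num) (lt_min (by positivity) (lt_min (by positivity)
      (lt_min (by positivity) hd5)))
  have d1 : δ ≤ 1 / 8 := by rw [hδ]; exact min_le_left _ _
  have d2 : δ ≤ a / 4 := by rw [hδ]; exact (min_le_right _ _).trans (min_le_left _ _)
  have d3 : δ ≤ 2 * a / c := by
    rw [hδ]; exact (min_le_right _ _).trans ((min_le_right _ _).trans (min_le_left _ _))
  have d4 : δ ≤ 1 / c := by
    rw [hδ]; exact (min_le_right _ _).trans ((min_le_right _ _).trans ((min_le_right _ _).trans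
      (min_le_left _ _)))
  have d5 : δ ≤ a ^ 2 / (32 * c * (256 * a / c ^ 2 + 3)) := by
    rw [hδ]; exact (min_le_right _ _).trans ((min_le_right _ _).trans ((min_le_right _ _).trans
      (min_le_right _ _)))
  rw [le_div_iff₀ hc] at d3 d4
  rw [le_div_iff₀ (by positivity)] at d5
  -- the number of teeth
  obtain ⟨N, hN2, hN3, hN4⟩ : ∃ N : ℕ, 2 ≤ N ∧ 256 * a / (c ^ 2 * δ ^ 2) ≤ N ∧
      (N : ℝ) ≤ 256 * a / (c ^ 2 * δ ^ 2) + 3 := by
    refine ⟨⌈256 * a / (c ^ 2 * δ ^ 2)⌉₊ + 2, by omega, ?_, ?_⟩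
    · push_cast
      have := Nat.le_ceil (256 * a / (c ^ 2 * δ ^ 2))
      linarith
    · push_cast
      have := Nat.ceil_lt_add_one (a := 256 * a / (c ^ 2 * δ ^ 2)) (by positivity)
      linarith
  have hN0 : (2 : ℝ) ≤ N := by exact_mod_cast hN2
  have hNp : (0 : ℝ) < N := by linarith
  obtain ⟨s, hs⟩ : ∃ s : ℝ, s = 1 / (4 * N) := ⟨_, rfl⟩
  have hs1 : 4 * N * s = 1 := by rw [hs]; field_simp
  have hs0 : 0 < s := by rw [hs]; positivity
  obtain ⟨h, hh⟩ : ∃ h : ℝ, h = c * δ / 8 := ⟨_, rfl⟩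
  have hh0 : 0 < h := by rw [hh]; positivity
  obtain ⟨q, hq⟩ : ∃ q : ℝ, q = s / h := ⟨_, rfl⟩
  have hq0 : 0 < q := by rw [hq]; positivity
  have hqN : q * (N * (c * δ)) = 2 := by
    rw [hq, hs, hh]; field_simp; norm_num
  have q1 : q * (128 * a) ≤ c * δ := by
    have e1 : 256 * a ≤ N * (c * δ) * (c * δ) := by
      rw [div_le_iff₀ (by positivity)] at hN3
      calc 256 * a ≤ N * (c ^ 2 * δ ^ 2) := hN3
        _ = _ := by ring
    have e2 : q * (256 * a) ≤ q * (N * (c * δ) * (c * δ)) := mul_le_mul_of_nonneg_left e1 hq0.le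
    have e3 : q * (N * (c * δ) * (c * δ)) = 2 * (c * δ) := by rw [← hqN]; ring
    linarith
  have q2 : δ ^ 2 ≤ q * a ^ 2 / 64 := by
    have e1 : N * (32 * c * δ ^ 3) ≤ a ^ 2 := by
      have f1 : N * (32 * c * δ ^ 3) ≤ (256 * a / (c ^ 2 * δ ^ 2) + 3) * (32 * c * δ ^ 3) :=
        mul_le_mul_of_nonneg_right hN4 (by positivity)
      have f2 : (256 * a / (c ^ 2 * δ ^ 2) + 3) * (32 * c * δ ^ 3) =
          δ * (32 * c * (256 * a / c ^ 2)) + δ * (32 * c * (3 * δ ^ 2)) := by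
        field_simp
      have f3 : δ ^ 2 ≤ 1 := pow_le_one₀ hδ0.le (by linarith)
      have f4 : δ * (32 * c * (3 * δ ^ 2)) ≤ δ * (32 * c * 3) := by
        apply mul_le_mul_of_nonneg_left _ hδ0.le
        apply mul_le_mul_of_nonneg_left _ (by positivity)
        linarith
      have f5 : δ * (32 * c * (256 * a / c ^ 2 + 3)) =
          δ * (32 * c * (256 * a / c ^ 2)) + δ * (32 * c * 3) := by ring
      linarith
    have e2 : q * (N * (32 * c * δ ^ 3)) ≤ q * a ^ 2 := mul_le_mul_of_nonneg_left e1 hq0.le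
    have e3 : q * (N * (32 * c * δ ^ 3)) = 64 * δ ^ 2 := by
      calc q * (N * (32 * c * δ ^ 3)) = q * (N * (c * δ)) * (32 * δ ^ 2) := by ring
        _ = _ := by rw [hqN]; ring
    linarith
  have H : Ok K N a s h := by
    refine ⟨ha1, hs1, hh0, ?_, ?_⟩
    · rw [hh]; linarith
    · rw [← hq]; linarith
  -- conclusion
  have hF1 := H.free_area
  have hF2 : volume (FF K N a s h) ≤ 1 := Ok.free_le
  have hF3 : 1 / 2 ≤ (volume (FF K N a s h)).toReal := by
    have := (ENNReal.ofReal_le_iff_le_toReal finite_free).1 hF1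
    exact this
  have hδ2 : 0 < δ ^ 2 := by positivity
  have hsq : √(δ ^ 2) = δ := Real.sqrt_sq hδ0.le
  have hδδ : δ ^ 2 ≤ δ := by
    rw [sq]; exact mul_le_of_le_one_left hδ0.le (by linarith)
  refine ⟨δ ^ 2, hδ2, by linarith, Fin K ⊕ (Fin (K + 1) × Fin N), inferInstance,
    Ob K N a s h, H.inside, H.disj, hF1, ?_, ?_⟩
  · intro v hv
    have e1 : ENNReal.ofReal (δ ^ 2) ≤ volume (Vis (FF K N a s h) v) := by
      apply H.area _ _ _ hv
      · linarith
      · linarith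
      · rw [← hq]; exact q2
    have e2 : ENNReal.ofReal (δ ^ 2) * volume (FF K N a s h) ≤ ENNReal.ofReal (δ ^ 2) * 1 :=
      mul_le_mul_right hF2 _
    rw [mul_one] at e2
    exact e2.trans e1
  · rw [hsq]
    have hvis : 2 * h + 16 * (s / h) * a < c * √(δ ^ 2 * (volume (FF K N a s h)).toReal) := by
      have e1 : δ / 2 ≤ √(δ ^ 2 * (volume (FF K N a s h)).toReal) := by
        apply Real.le_sqrt_of_sq_le
        have g1 : δ ^ 2 * (1 / 2) ≤ δ ^ 2 * (volume (FF K N a s h)).toReal :=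
          mul_le_mul_of_nonneg_left hF3 hδ2.le
        have g2 : (δ / 2) ^ 2 = δ ^ 2 / 4 := by ring
        linarith
      have e2 : c * (δ / 2) ≤ c * √(δ ^ 2 * (volume (FF K N a s h)).toReal) :=
        mul_le_mul_of_nonneg_left e1 hc.le
      have e3 : 2 * h + 16 * (s / h) * a < c * (δ / 2) := by
        rw [← hq, hh]
        have : 0 < c * δ := by positivity
        linarith
      linarith
    have hE := H.exc_area (ε := δ ^ 2) hvis
    refine lt_of_lt_of_le ?_ hE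
    have e1 : ENNReal.ofReal (C * δ) * volume (FreeSp (Ob K N a s h)) ≤ ENNReal.ofReal (C * δ) * 1 :=
      mul_le_mul_right hF2 _
    rw [mul_one] at e1
    refine lt_of_le_of_lt e1 ?_
    have e2 : C * δ < ((K : ℝ) + 1) * (N - 1 : ℕ) * (s * (h / 2)) := by
      have f1 : ((N - 1 : ℕ) : ℝ) = N - 1 := by
        rw [Nat.cast_sub (by omega)]; simp
      rw [f1]
      have f2 : 1 / 8 ≤ ((N : ℝ) - 1) * s := by
        have g1 : ((N : ℝ) - 1) * s = (4 * N * s) / 8 + (N / 2 - 1) * s := by ring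
        have g2 : 0 ≤ ((N : ℝ) / 2 - 1) * s := mul_nonneg (by linarith) hs0.le
        rw [g1, hs1]
        linarith
      have f3 : 128 * C < K * c := by rwa [div_lt_iff₀ hc] at hK
      have f4 : C * δ < K * (h / 16) := by
        rw [hh]
        have := mul_lt_mul_of_pos_right f3 hδ0
        linarith
      have f5 : K * (h / 16) ≤ (K + 1) * (1 / 8 * (h / 2)) := by
        have g1 : (K + 1) * (1 / 8 * (h / 2)) = K * (h / 16) + h / 16 := by ring
        linarith
      have f6 : 1 / 8 * (h / 2) ≤ ((N : ℝ) - 1) * s * (h / 2) :=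
        mul_le_mul_of_nonneg_right f2 (by linarith)
      have f7 : ((K : ℝ) + 1) * (1 / 8 * (h / 2)) ≤ ((K : ℝ) + 1) * (((N : ℝ) - 1) * s * (h / 2)) :=
        mul_le_mul_of_nonneg_left f6 (by linarith)
      have f8 : ((K : ℝ) + 1) * (((N : ℝ) - 1) * s * (h / 2)) =
        ((K : ℝ) + 1) * ((N : ℝ) - 1) * (s * (h / 2)) := by ring
      linarith
    have e3 : 0 < C * δ := by positivity
    exact (ENNReal.ofReal_lt_ofReal_iff (by linarith)).2 e2


end Pool.Agent.Results.MP_9521de_co.ManyPointsSeeLittle
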